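import Pool.Agent.N580.AU.Stm2

/-!
# Project AU: packing of triples of the same shape in abelian groups
-/

set_option autoImplicit false

namespace Pool.Agent.N403.AU

open Finset Pool.Agent.N580.AU

theorem pckb : PCKB := by
  classical
  intro G _ _ k g I _ X hX τ s J x hdist hx
  obtain ⟨E, hE⟩ : ∃ E : Fin 3 → (∀ j, Fin (2 ^ s j)) → G, ∀ σ y,
      E σ y = ∑ j, (if σ = τ j then (y j : ℕ) else 0) • g j := ⟨_, fun _ _ => rfl⟩
  have hmem : ∀ i ∈ J, ∀ σ, ∀ y : ∀ j, Fin (2 ^ s j), x i σ + E σ y ∈ X σ i := by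
    intro i hi σ y
    rw [hE]
    exact hx i hi σ (fun j => (y j : ℕ)) fun j => (y j).2
  let f : (J × ∀ j, Fin (2 ^ s j)) → G := fun z =>
    x z.1.1 0 - x z.1.1 2 + E 0 z.2 + E 1 z.2 - E 2 z.2
  have hf : Function.Injective f := by
    rintro ⟨⟨i, hi⟩, y⟩ ⟨⟨k, hk⟩, y'⟩ h
    have h' : x i 0 - x i 2 + E 0 y + E 1 y - E 2 y = x k 0 - x k 2 + E 0 y' + E 1 y' - E 2 y' := h
    obtain ⟨h1, -, h2, h3, h4⟩ := hX i k k _ (hmem i hi 0 y) _ (hmem k hk 0 y') _ (hmem k hk 1 y) _
      (hmem k hk 1 y') _ (hmem k hk 2 y') _ (hmem i hi 2 y) (by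
        rw [← sub_eq_zero] at h'
        rw [← h']
        abel)
    subst h1
    have h5 : y = y' := by
      have h6 := hdist (fun j => (y j : ℕ)) (fun j => (y' j : ℕ)) (fun j => (y j).2)
        (fun j => (y' j).2) (fun σ => by
          have e0 := add_left_cancel h2
          have e1 := add_left_cancel h3
          have e2 := add_left_cancel h4
          rw [hE, hE] at e0 e1 e2
          fin_cases σ
          · exact e0
          · exact e1
          · exact e2.symm)
      funext j
      exact Fin.ext (congrFun h6 j)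
    rw [h5]
  have h := Nat.card_le_card_of_injective f hf
  rw [Nat.card_prod, Nat.card_pi] at h
  simpa using h

end Pool.Agent.N403.AU
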