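import Pool.Agent.N403.RS.LowC

/-!
# RS/LOW: many points with ideals divisible by given ideals
-/

set_option autoImplicit false

namespace Pool.Agent.N403.RS

open NumberField IsDedekindDomain Finset Filter Topology Pool.Agent.H691R3 Pool.Agent.W223.AK Pool.Agent.N906.RS

theorem mk_pair {K : Type} [Field K] [NumberField K] {D : Fin 3 → Idl K} {R : ℝ} (hR0 : 0 < R)
    {a b e0 e2 : 𝓞 K} (he0 : e0 ∈ idl (D 0)) (he2 : e2 ∈ idl (D 2)) (he : e0 + e2 = 1)
    (ha2 : ∀ w : InfinitePlace K, R / 2 ≤ w a ∧ w a ≤ R)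
    (hb2 : ∀ w : InfinitePlace K, R / 2 ≤ w b ∧ w b ≤ R) (hb1 : b ∈ idl (D 1))
    (ha1 : a - (-b * e0) ∈ idl (D 0) * idl (D 2)) (hab : a ≠ -b) :
    ∃ o : Fin 3 → Idl K, Pair R (a : K) (b : K) o ∧ ∀ l, D l ≤ o l := by
  have hne : ∀ r : 𝓞 K, (∀ w : InfinitePlace K, R / 2 ≤ w r ∧ w r ≤ R) → r ≠ 0 := by
    rintro r hr rfl
    obtain ⟨w⟩ : Nonempty (InfinitePlace K) := inferInstance
    have h5 := (hr w).1
    have h6 : w ((0 : 𝓞 K) : K) = 0 := by simp
    rw [h6] at h5
    linarith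
  have ha0 := hne a ha2
  have hb0 := hne b hb2
  have hab0 : a + b ≠ 0 := fun h => hab (by linear_combination h)
  obtain ⟨oa, hoa⟩ := exists_od ha0
  obtain ⟨ob, hob⟩ := exists_od hb0
  obtain ⟨oab, hoab⟩ := exists_od hab0
  have hmem0 : a ∈ idl (D 0) := by
    have h5 : a - (-b * e0) ∈ idl (D 0) := Ideal.mul_le_left ha1
    have h7 := Ideal.add_mem _ h5 (Ideal.mul_mem_left _ (-b) he0)
    rwa [sub_add_cancel] at h7
  have hmem2 : a + b ∈ idl (D 2) := by
    have h5 : a - (-b * e0) ∈ idl (D 2) := Ideal.mul_le_right ha1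
    have h7 := Ideal.add_mem _ h5 (Ideal.mul_mem_left _ b he2)
    have h6 : (a - (-b * e0)) + b * e2 = a + b := by linear_combination b * he
    rwa [h6] at h7
  have hcast : ((a + b : 𝓞 K) : K) = (a : K) + (b : K) := map_add _ _ _
  refine ⟨![oa, ob, oab], ⟨?_, ?_, ?_, hoa, hob, ?_, fun w => (ha2 w).2, fun w => (hb2 w).2,
    fun w => (hb2 w).1⟩, ?_⟩
  · exact RingOfIntegers.coe_ne_zero_iff.mpr ha0
  · exact RingOfIntegers.coe_ne_zero_iff.mpr hb0
  · rw [← hcast]
    exact RingOfIntegers.coe_ne_zero_iff.mpr hab0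
  · rw [← hcast]
    exact hoab
  · rw [Fin.forall_fin_succ, Fin.forall_fin_succ, Fin.forall_fin_one]
    exact ⟨hoa.le hmem0, hob.le hb1, hoab.le hmem2⟩

theorem low (K : Type) [Field K] [NumberField K] (h1 : S_CELL K) (h2 : S_COSET K) (h3 : S_CNT K) :
    S_LOW K := by
  classical
  obtain ⟨c, hc, hcos⟩ := h2
  obtain ⟨c₁, c', C', hc₁, hc', hC', hcore⟩ := core h1 h3 (c ^ 2 / 2) (by positivity)
  refine ⟨c₁, c', C' + c' * Real.exp (Real.log (2 / c)), hc₁, hc', by positivity, ?_⟩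
  intro X D hX hD hr
  by_cases hcase : X - Real.log (2 / c) < tl D
  · refine ⟨∅, by simp, ?_⟩
    have h4 : Real.exp (2 * X - tl D) ≤ Real.exp (Real.log (2 / c)) * Real.exp X := by
      rw [← Real.exp_add, Real.exp_le_exp]
      linarith
    have h5 := mul_le_mul_of_nonneg_left h4 hc'.le
    have h6 : 0 < C' * Real.exp X := mul_pos hC' (Real.exp_pos _)
    simp only [Finset.card_empty, Nat.cast_zero]
    nlinarith
  push Not at hcase
  have hlog : Real.exp (Real.log (2 / c)) = 2 / c := Real.exp_log (by positivity)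
  set d : ℕ := Module.finrank ℚ K with hd
  have hd0 : (0:ℝ) < d := by exact_mod_cast Module.finrank_pos
  set R : ℝ := Real.exp (X / d) with hR
  have hR1 : 1 ≤ R := Real.one_le_exp (div_nonneg hX hd0.le)
  have hR0 : 0 < R := Real.exp_pos _
  have hRd : R ^ d = Real.exp X := by
    rw [hR, ← Real.exp_nat_mul]
    congr 1
    field_simp
  have htl : tl D = len (D 0) + len (D 1) + len (D 2) := by
    unfold tl
    rw [Fin.sum_univ_three]
  have hl0 := len_nonneg (D 0)
  have hl1 := len_nonneg (D 1)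
  have hl2 := len_nonneg (D 2)
  have hsmall : ∀ t : ℝ, t ≤ X - Real.log (2 / c) → Real.exp t ≤ c / 2 * Real.exp X := by
    intro t ht
    refine (Real.exp_le_exp.2 ht).trans (le_of_eq ?_)
    rw [Real.exp_sub, hlog]
    field_simp
  -- the second coordinate
  obtain ⟨FB, hFB, hFBc⟩ := hcos R (idl (D 1)) 0 hR1 (idl_ne _) (by
    rw [absNorm_idl, hRd]
    refine (hsmall (len (D 1)) (by linarith)).trans ?_
    have := mul_pos hc (Real.exp_pos X)
    linarith)
  -- the first coordinate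
  obtain ⟨e0, he0, e2, he2, he⟩ := Submodule.mem_sup.1 ((Ideal.eq_top_iff_one _).1
    (Ideal.isCoprime_iff_sup_eq.1 (idl_coprime (hD 0 2 (by decide)))))
  have hne02 : idl (D 0) * idl (D 2) ≠ ⊥ := by
    rw [← Ideal.zero_eq_bot]
    exact mul_ne_zero (by rw [Ideal.zero_eq_bot]; exact idl_ne _) (by rw [Ideal.zero_eq_bot]; exact idl_ne _)
  have hnorm02 : (Ideal.absNorm (idl (D 0) * idl (D 2)) : ℝ) = Real.exp (len (D 0) + len (D 2)) := by
    rw [map_mul, Nat.cast_mul, absNorm_idl, absNorm_idl, Real.exp_add]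
  have hex : ∀ b : 𝓞 K, ∃ A : Finset (𝓞 K),
      (∀ a ∈ A, a - (-b * e0) ∈ idl (D 0) * idl (D 2) ∧ ∀ w : InfinitePlace K, R / 2 ≤ w a ∧ w a ≤ R) ∧
      c * (R ^ Module.finrank ℚ K / Ideal.absNorm (idl (D 0) * idl (D 2))) ≤ A.card := by
    intro b
    refine hcos R (idl (D 0) * idl (D 2)) (-b * e0) hR1 hne02 ?_
    rw [hnorm02, hRd]
    refine (hsmall (len (D 0) + len (D 2)) (by linarith)).trans ?_
    have := mul_pos hc (Real.exp_pos X)
    linarith
  choose A hA hAc using hex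
  set t : ℝ := X - (len (D 0) + len (D 2)) with ht
  have hAc' : ∀ b, c * Real.exp t ≤ (A b).card := by
    intro b
    have h4 := hAc b
    rw [hnorm02, hRd, ← Real.exp_sub] at h4
    exact h4
  have hA2 : 2 ≤ c * Real.exp t := by
    have h4 : Real.exp (Real.log (2 / c)) ≤ Real.exp t := Real.exp_le_exp.2 (by linarith)
    rw [hlog] at h4
    calc (2:ℝ) = c * (2 / c) := by field_simp
      _ ≤ c * Real.exp t := mul_le_mul_of_nonneg_left h4 hc.le
  -- the pairs
  set Q₀ : Finset (Σ _ : 𝓞 K, 𝓞 K) := FB.sigma fun b => (A b).erase (-b) with hQ₀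
  set ψ : (Σ _ : 𝓞 K, 𝓞 K) → K × K := fun p => ((p.2 : K), (p.1 : K)) with hψ
  have hψinj : Function.Injective ψ := by
    rintro ⟨b, a⟩ ⟨b', a'⟩ h
    simp only [hψ, Prod.mk.injEq] at h
    obtain ⟨e1, e2⟩ := h
    have e1' : a = a' := RingOfIntegers.coe_injective e1
    have e2' : b = b' := RingOfIntegers.coe_injective e2
    subst e1' e2'
    rfl
  set Q : Finset (K × K) := Q₀.image ψ with hQ
  have hmem : ∀ q ∈ Q, ∃ o : Fin 3 → Idl K, Pair R q.1 q.2 o ∧ ∀ l, D l ≤ o l := by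
    intro q hq
    obtain ⟨⟨b, a⟩, hp, rfl⟩ := Finset.mem_image.1 hq
    rw [hQ₀, Finset.mem_sigma] at hp
    obtain ⟨hb, ha⟩ := hp
    simp only at hb ha
    obtain ⟨hab, haA⟩ := Finset.mem_erase.1 ha
    obtain ⟨hb1, hb2⟩ := hFB b hb
    obtain ⟨ha1, ha2⟩ := hA b a haA
    rw [sub_zero] at hb1
    exact mk_pair hR0 he0 he2 he ha2 hb2 hb1 ha1 hab
  choose! oo hoo using hmem
  refine (hcore X D hX hD hr Q oo hoo ?_).imp fun F hF => ⟨hF.1, ?_⟩
  · -- the number of the pairs
    rw [hQ, Finset.card_image_of_injective _ hψinj, hQ₀, Finset.card_sigma]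
    push_cast
    have h4 : ∀ b ∈ FB, c / 2 * Real.exp t ≤ (((A b).erase (-b)).card : ℝ) := by
      intro b _
      have h5 : (A b).card ≤ ((A b).erase (-b)).card + 1 := by
        have := Finset.pred_card_le_card_erase (s := A b) (a := -b)
        omega
      have h6 : ((A b).card : ℝ) ≤ ((A b).erase (-b)).card + 1 := by exact_mod_cast h5
      have h7 := hAc' b
      linarith
    have h5 : c * Real.exp (X - len (D 1)) ≤ FB.card := by
      rw [absNorm_idl, hRd, ← Real.exp_sub] at hFBc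
      exact hFBc
    calc c ^ 2 / 2 * Real.exp (2 * X - tl D) =
          (c * Real.exp (X - len (D 1))) * (c / 2 * Real.exp t) := by
          have : Real.exp (2 * X - tl D) = Real.exp (X - len (D 1)) * Real.exp t := by
            rw [← Real.exp_add, htl, ht]
            congr 1
            ring
          rw [this]
          ring
      _ ≤ FB.card * (c / 2 * Real.exp t) := by
          refine mul_le_mul_of_nonneg_right h5 ?_
          positivity
      _ = ∑ b ∈ FB, c / 2 * Real.exp t := by rw [Finset.sum_const, nsmul_eq_mul]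
      _ ≤ ∑ b ∈ FB, (((A b).erase (-b)).card : ℝ) := Finset.sum_le_sum h4
  · refine le_trans ?_ hF.2
    have : 0 ≤ c' * Real.exp (Real.log (2 / c)) * Real.exp X := by positivity
    linarith

end Pool.Agent.N403.RS
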