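import Pool.Agent.N657.ZS.Stm

/-!
# ZS/HULL: clusters around the line
-/

set_option autoImplicit false

namespace Pool.Agent.N403.ZSHULL

open Pool.Agent.TH964.CF Pool.Agent.N657.ZS

lemma adj_symm {a b : Fin 4 → ℤ} (h : adj a b) : adj b a := fun i => by
  rw [abs_sub_comm]; exact h i

lemma rch_symm {B : Set (Fin 4 → ℤ)} {z w : Fin 4 → ℤ} (hz : z ∈ B) (h : Rch B z w) :
    w ∈ B ∧ Rch B w z := by
  induction h with
  | refl => exact ⟨hz, Relation.ReflTransGen.refl⟩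
  | tail _ hbc ih =>
    exact ⟨hbc.1, Relation.ReflTransGen.head ⟨ih.1, adj_symm hbc.2⟩ ih.2⟩

lemma rch_trans {B : Set (Fin 4 → ℤ)} {a b c : Fin 4 → ℤ} (h : Rch B a b) (h' : Rch B b c) :
    Rch B a c := Relation.ReflTransGen.trans h h'

lemma ivt {B : Set (Fin 4 → ℤ)} (i : Fin 4) (c : ℤ) {a b : Fin 4 → ℤ} (h : Rch B a b)
    (h1 : a i ≤ c) (h2 : c ≤ b i) : ∃ u, Rch B a u ∧ u i = c := by
  induction h with
  | refl => exact ⟨a, Relation.ReflTransGen.refl, by omega⟩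
  | tail hab hbc ih =>
    rename_i x y
    by_cases hx : c ≤ x i
    · exact ih hx
    · have h3 := hbc.2 i
      rw [abs_le] at h3
      exact ⟨y, Relation.ReflTransGen.tail hab hbc, by omega⟩

section
variable {B : Set (Fin 4 → ℤ)} {z : Fin 4 → ℤ}

lemma ivtD (hz : z ∈ B) (i : Fin 4) (c : ℤ) {a b : Fin 4 → ℤ} (ha : Rch B z a) (hb : Rch B z b)
    (h1 : a i ≤ c) (h2 : c ≤ b i) : ∃ u, Rch B z u ∧ u i = c := by
  obtain ⟨u, hu, huc⟩ := ivt i c (rch_trans (rch_symm hz ha).2 hb) h1 h2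
  exact ⟨u, rch_trans ha hu, huc⟩

lemma pthD (hP : S_PATH) (hz : z ∈ B) {u a : Fin 4 → ℤ} (hu : Rch B z u) (ha : Rch B z a)
    (i : Fin 4) (m : ℕ) (hm : (m : ℤ) ≤ |u i - a i|) : Pth B u m :=
  hP B u a (rch_symm hz hu).1 (rch_trans (rch_symm hz hu).2 ha) i m hm

lemma other (hP : S_PATH) (hz : z ∈ B) (i : Fin 4) (h1 : ∃ a, Rch B z a ∧ a i ≤ 0)
    (h2 : ∃ a, Rch B z a ∧ 0 ≤ a i) {u : Fin 4 → ℤ} (hu : Rch B z u) (m : ℕ)
    (hm : |u i| = m) : Pth B u m := by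
  rcases le_total 0 (u i) with h0 | h0
  · obtain ⟨a, ha, hai⟩ := h1
    refine pthD hP hz hu ha i m ?_
    rw [← hm, abs_of_nonneg h0]
    exact le_trans (by omega) (le_abs_self _)
  · obtain ⟨a, ha, hai⟩ := h2
    refine pthD hP hz hu ha i m ?_
    rw [← hm, abs_of_nonpos h0]
    exact le_trans (by omega) (neg_le_abs (u i - a i))

lemma cross (hP : S_PATH) (hz : z ∈ B) (h1 : ∃ a, Rch B z a ∧ a 2 ≤ 0)
    (h2 : ∃ a, Rch B z a ∧ 0 ≤ a 2) (h3 : ∃ a, Rch B z a ∧ a 3 ≤ 0)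
    (h4 : ∃ a, Rch B z a ∧ 0 ≤ a 3) {u : Fin 4 → ℤ} (hu : Rch B z u) :
    ∃ m : ℕ, |u 2| ≤ m ∧ |u 3| ≤ m ∧ Pth B u m ∧ (|u 2| = m ∨ |u 3| = m) := by
  rcases le_total (|u 2|) (|u 3|) with h | h
  · refine ⟨(|u 3|).toNat, ?_⟩
    have e : (((|u 3|).toNat : ℕ) : ℤ) = |u 3| := Int.toNat_of_nonneg (abs_nonneg _)
    exact ⟨by rw [e]; exact h, by rw [e], other hP hz 3 h3 h4 hu _ e.symm, Or.inr e.symm⟩
  · refine ⟨(|u 2|).toNat, ?_⟩
    have e : (((|u 2|).toNat : ℕ) : ℤ) = |u 2| := Int.toNat_of_nonneg (abs_nonneg _)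
    exact ⟨by rw [e], by rw [e]; exact h, other hP hz 2 h1 h2 hu _ e.symm, Or.inl e.symm⟩

end

theorem main (hP : S_PATH) : S_HULL := by
  intro q R S hR hRS θ hE z hz t ht1 ht2 ⟨a, ha, hat⟩ ⟨b, hb, hbt⟩ h1 h2 h3 h4 w hw
  by_contra hInn
  have hOm : ∀ u, Rch (B4 S θ) z u → Om S u ∧ (u 1 = 0 ∨ u 1 = 1) := by
    intro u hu
    obtain ⟨h5, h6⟩ := (rch_symm hz hu).1
    refine ⟨h5, ?_⟩
    rcases h6 with h6 | h6
    · exact Or.inl h6.1
    · exact Or.inr h6.1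
  -- the first alternative
  have K : ∀ u, Rch (B4 S θ) z u → (u 0 = -1 ∨ u 0 = -R) → False := by
    intro u hu h0
    obtain ⟨m, m1, m2, m3, m4⟩ := cross hP hz h1 h2 h3 h4 hu
    exact hE ⟨u, (hOm u hu).2, Or.inl ⟨m, h0, m1, m2, m3, m4⟩⟩
  obtain ⟨⟨w1, w2, w3, w4⟩, -⟩ := hOm w hw
  -- the second alternative
  have K2 : ∀ i : Fin 4, (i = 2 ∨ i = 3) → S ≤ |w i| → False := by
    intro i hi hSi
    obtain ⟨u, hu, hut⟩ := ivtD hz 0 t ha hb hat hbt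
    obtain ⟨⟨-, -, u3, u4⟩, u5⟩ := hOm u hu
    obtain ⟨m, m1, m2, m3, m4⟩ := cross hP hz h1 h2 h3 h4 hu
    have hui : |u i| ≤ m := by
      rcases hi with rfl | rfl
      · exact m1
      · exact m2
    by_cases hm : S ≤ 2 * m
    · exact hE ⟨u, u5, Or.inr ⟨by omega, by omega, u3, u4, m, hm, m3⟩⟩
    · have hnn : 0 ≤ S - m := by omega
      have e : (((S - m).toNat : ℕ) : ℤ) = S - m := Int.toNat_of_nonneg hnn
      refine hE ⟨u, u5, Or.inr ⟨by omega, by omega, u3, u4, (S - m).toNat, by rw [e]; omega, ?_⟩⟩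
      refine pthD hP hz hu hw i _ ?_
      rw [e]
      have h5 : |w i| ≤ |u i - w i| + |u i| := by
        have h6 : w i = -(u i - w i) + u i := by ring
        calc |w i| = |-(u i - w i) + u i| := by rw [← h6]
          _ ≤ |-(u i - w i)| + |u i| := abs_add_le _ _
          _ = _ := by rw [abs_neg]
      linarith
  apply hInn
  refine ⟨?_, ?_, ?_, ?_⟩
  · by_contra h5
    rw [not_lt] at h5
    obtain ⟨u, hu, hu0⟩ := ivtD hz 0 (-R) hw hb h5 (ht1.trans hbt)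
    exact K u hu (Or.inr hu0)
  · by_contra h5
    rw [not_lt] at h5
    exact K w hw (Or.inl (by omega))
  · by_contra h5
    rw [not_lt] at h5
    exact K2 2 (Or.inl rfl) h5
  · by_contra h5
    rw [not_lt] at h5
    exact K2 3 (Or.inr rfl) h5

end Pool.Agent.N403.ZSHULL
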