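import Pool.Agent.N657.ZS.Stm

/-!
# ZS/PATH: a long distance in a cluster gives a path of distinct sites
-/

set_option autoImplicit false

namespace Pool.Agent.N403.ZSPATH

open Pool.Agent.N657.ZS

lemma adj_symm {a b : Fin 4 → ℤ} (h : adj a b) : adj b a := fun i => by
  rw [abs_sub_comm]; exact h i

/-- The graph of the set `B`. -/
def gr (B : Set (Fin 4 → ℤ)) : SimpleGraph (Fin 4 → ℤ) where
  Adj a b := a ≠ b ∧ a ∈ B ∧ b ∈ B ∧ adj a b
  symm := ⟨fun _ _ h => ⟨h.1.symm, h.2.2.1, h.2.1, adj_symm h.2.2.2⟩⟩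
  loopless := ⟨fun _ h => h.1 rfl⟩

lemma gr_adj {B : Set (Fin 4 → ℤ)} {a b : Fin 4 → ℤ} (h : (gr B).Adj a b) :
    a ≠ b ∧ a ∈ B ∧ b ∈ B ∧ adj a b := h

lemma reach {B : Set (Fin 4 → ℤ)} {z w : Fin 4 → ℤ} (hz : z ∈ B) (h : Rch B z w) :
    w ∈ B ∧ (gr B).Reachable z w := by
  induction h with
  | refl => exact ⟨hz, SimpleGraph.Reachable.refl _⟩
  | tail _ hbc ih =>
    rename_i b c _
    refine ⟨hbc.1, ?_⟩
    by_cases hne : b = c
    · rw [← hne]; exact ih.2
    · exact ih.2.trans (SimpleGraph.Adj.reachable (show (gr B).Adj b c from ⟨hne, ih.1, hbc.1, hbc.2⟩))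

theorem main : S_PATH := by
  intro B z w hz h i m hm
  obtain ⟨hw, ⟨P⟩⟩ := reach hz h
  classical
  obtain ⟨W, hW⟩ : ∃ W : (gr B).Walk z w, W.IsPath := ⟨P.bypass, P.bypass_isPath⟩
  have hdist : ∀ k ≤ W.length, |z i - W.getVert k i| ≤ k := by
    intro k
    induction k with
    | zero => intro _; simp
    | succ k ih =>
      intro hk
      have h1 := ih (by omega)
      have h2 := (gr_adj (W.adj_getVert_succ (show k < W.length by omega))).2.2.2 i
      have h3 : z i - W.getVert (k + 1) i = (z i - W.getVert k i) +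
        (W.getVert k i - W.getVert (k + 1) i) := by ring
      rw [h3]
      push_cast
      exact (abs_add_le _ _).trans (add_le_add h1 h2)
  have hlen : m ≤ W.length := by
    have h1 := hdist W.length le_rfl
    rw [W.getVert_length] at h1
    have : (m : ℤ) ≤ W.length := hm.trans h1
    exact_mod_cast this
  refine ⟨W.getVert, W.getVert_zero, ?_, ?_, ?_⟩
  · intro k hk
    rcases Nat.eq_zero_or_pos k with h0 | h0
    · rw [h0, W.getVert_zero]; exact hz
    · obtain ⟨j, rfl⟩ : ∃ j, k = j + 1 := ⟨k - 1, by omega⟩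
      exact (gr_adj (W.adj_getVert_succ (show j < W.length by omega))).2.2.1
  · intro k hk
    exact (gr_adj (W.adj_getVert_succ (show k < W.length by omega))).2.2.2
  · intro a ha b hb hab
    rw [Set.mem_Iic] at ha hb
    exact hW.getVert_injOn (Set.mem_setOf.2 (ha.trans hlen)) (Set.mem_setOf.2 (hb.trans hlen)) hab

end Pool.Agent.N403.ZSPATH
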